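import Pool.Agent.Q224.WK.Base

/-! Project WK (helper44), job AA (helper224): the form `A`. -/

set_option autoImplicit false

namespace Pool.Agent.Q224.WK.AA

open Pool.Agent.Q44.WK MvPolynomial Pool.Agent.Q224.WK

section

variable {K : Type} [Field K]

lemma eval_lin (D : Dat K) (x y : V K) : eval (Sum.elim x y) D.linP = D.lin x y := by
  simp [Dat.linP, Dat.lin]

lemma eval_quad (D : Dat K) (x y : V K) : eval (Sum.elim x y) D.quadP = D.quad x y := by
  simp [Dat.quadP, Dat.quad]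

lemma eval_ideal (D : Dat K) (x y : V K) (h : D.On x y) (f : MvPolynomial (Fin 3 ⊕ Fin 3) K)
    (hf : f ∈ D.ideal) : eval (Sum.elim x y) f = 0 := by
  unfold Dat.ideal at hf
  rw [Ideal.mem_radical_iff] at hf
  obtain ⟨n, hn⟩ := hf
  have h1 : Ideal.span {D.linP, D.quadP} ≤ RingHom.ker (eval (Sum.elim x y)) := by
    rw [Ideal.span_le]
    intro g hg
    rw [SetLike.mem_coe, RingHom.mem_ker]
    rcases hg with rfl | hg
    · rw [eval_lin]
      exact h.2.2.1
    · rw [Set.mem_singleton_iff] at hg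
      rw [hg, eval_quad]
      exact h.2.2.2
  have h2 := h1 hn
  rw [RingHom.mem_ker, map_pow] at h2
  exact eq_zero_of_pow_eq_zero h2

lemma eval_GP (D : Dat K) (x : V K) (a b : Fin 3) : eval x (D.GP a b) = D.G x a b := by
  unfold Dat.GP
  rw [← G_map (eval x) (D.map C) X a b]
  have h1 : (D.map C).map (eval x) = D := by
    unfold Dat.map
    simp
  rw [h1]
  simp

lemma eval_gP (D : Dat K) (x m : V K) :
    eval x (D.gP m) = ∑ a, ∑ b, m a * m b * D.G x a b := by
  unfold Dat.gP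
  simp only [map_sum, map_mul, eval_C, eval_GP]

/-- the quadratic form -/
def q (D : Dat K) (x m : V K) : K := ∑ a, ∑ b, m a * m b * D.G x a b

lemma ne_ideal (D : Dat K) (x y m : V K) (h : D.On x y) (hq : q D x m ≠ 0) :
    rename Sum.inl (D.gP m) ∉ D.ideal := by
  intro h0
  have h1 := eval_ideal D x y h _ h0
  rw [eval_rename] at h1
  have e : (Sum.elim x y) ∘ (Sum.inl : Fin 3 → Fin 3 ⊕ Fin 3) = x := rfl
  rw [e, eval_gP] at h1
  exact hq h1

/-- shifting by a multiple of a unit vector -/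
def sh (m : V K) (i : Fin 3) (s : K) : V K := fun j => m j + if j = i then s else 0

lemma q_sh (D : Dat K) (x m : V K) (i : Fin 3) (s : K) :
    q D x (sh m i s) = q D x m + s * (∑ b, m b * (D.G x i b + D.G x b i)) + s ^ 2 * D.G x i i := by
  unfold q sh
  fin_cases i <;> simp [Fin.sum_univ_three] <;> ring

lemma exists_m [CharZero K] (D : Dat K) (x : V K) (h : ∃ a b, D.G x a b ≠ 0) :
    ∃ m : V K, q D x m ≠ 0 := by
  by_contra hc
  push Not at hc
  have h0 : ∀ i, D.G x i i = 0 := by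
    intro i
    have h1 := hc (sh 0 i 1)
    rw [q_sh] at h1
    have h2 : q D x 0 = 0 := by simp [q]
    rw [h2] at h1
    simpa using h1
  obtain ⟨a, b, hab⟩ := h
  have h1 := hc (sh (sh 0 a 1) b 1)
  rw [q_sh, hc (sh 0 a 1), h0 b] at h1
  have h2 : ∑ c, (sh (0 : V K) a 1) c * (D.G x b c + D.G x c b) = D.G x b a + D.G x a b := by
    simp [sh]
  rw [h2, G_symm D x b a] at h1
  apply hab
  have h3 : (2 : K) * D.G x a b = 0 := by linear_combination h1
  exact (mul_eq_zero.1 h3).resolve_left two_ne_zero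

lemma exists_s [CharZero K] (D : Dat K) (x m : V K) (hm : q D x m ≠ 0) (i : Fin 3) :
    ∃ s : K, s ≠ 0 ∧ q D x (sh m i s) ≠ 0 := by
  by_contra hc
  push Not at hc
  have h1 := hc 1 one_ne_zero
  have h2 := hc (-1) (neg_ne_zero.2 one_ne_zero)
  have h3 := hc 2 two_ne_zero
  rw [q_sh] at h1 h2 h3
  apply hm
  have h4 : (3 : K) * q D x m = 0 := by linear_combination 3 * h1 + h2 - h3
  exact (mul_eq_zero.1 h4).resolve_left three_ne_zero

end

theorem main (h : S_int) : S_A := by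
  intro K _ _ D hp x₀ y₀ hon hG f hf
  obtain ⟨m, hm⟩ := exists_m D x₀ hG
  choose s hs0 hs using exists_s D x₀ m hm
  obtain ⟨α, A, hA, hA0, hAv⟩ := h K D hp x₀ y₀ hon f hf m (ne_ideal D x₀ y₀ m hon hm)
  have hi : ∀ i : Fin 3, ∃ (α : ℕ) (A : MvPolynomial (Fin 3) K), A.IsHomogeneous α ∧ A ≠ 0 ∧
      ∀ x y : V K, D.On x y → (∀ s t : K, eval (Sum.elim (s • x) (t • y)) f = 0) →
        ∑ a, (sh m i (s i)) a * y a ≠ 0 → eval x A = 0 := fun i =>
    h K D hp x₀ y₀ hon f hf (sh m i (s i)) (ne_ideal D x₀ y₀ _ hon (hs i))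
  choose β B hB hB0 hBv using hi
  refine ⟨α + ∑ i, β i, A * ∏ i, B i, hA.mul (IsHomogeneous.prod Finset.univ B β (fun i _ => hB i)),
    mul_ne_zero hA0 (Finset.prod_ne_zero_iff.2 fun i _ => hB0 i), ?_⟩
  intro x y hxy hfv
  rw [map_mul, map_prod]
  by_cases h0 : ∑ a, m a * y a = 0
  · obtain ⟨i, hyi⟩ : ∃ i, y i ≠ 0 := by
      by_contra hc
      push Not at hc
      exact hxy.2.1 (funext hc)
    have h1 : ∑ a, (sh m i (s i)) a * y a ≠ 0 := by
      have e : ∑ a, (sh m i (s i)) a * y a = ∑ a, m a * y a + s i * y i := by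
        simp only [sh, add_mul, Finset.sum_add_distrib, ite_mul, zero_mul]
        simp
      rw [e, h0, zero_add]
      exact mul_ne_zero (hs0 i) hyi
    rw [Finset.prod_eq_zero (Finset.mem_univ i) (hBv i x y hxy hfv h1), mul_zero]
  · rw [hAv x y hxy hfv h0, zero_mul]

end Pool.Agent.Q224.WK.AA
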