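import Pool.Agent.Q44.WK.Stm

/-! Project WK (helper44): basic lemmas (helper224). -/

set_option autoImplicit false

namespace Pool.Agent.Q224.WK

open Pool.Agent.Q44.WK

variable {F E : Type} [CommRing F] [CommRing E]

lemma cr_map (σ : F →+* E) (v : V F) (a k : Fin 3) :
    Dat.cr (fun j => σ (v j)) a k = σ (Dat.cr v a k) := by
  fin_cases a <;> fin_cases k <;> simp [Dat.cr]

lemma cr_smul (s : F) (v : V F) (a k : Fin 3) :
    Dat.cr (fun j => s * v j) a k = s * Dat.cr v a k := by
  fin_cases a <;> fin_cases k <;> simp [Dat.cr]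

lemma lam_map (σ : F →+* E) (D : Dat F) (x : V F) :
    (D.map σ).lam (fun j => σ (x j)) = fun j => σ (D.lam x j) := by
  funext j
  simp [Dat.lam, Dat.map, map_sum]

lemma lam_smul (D : Dat F) (s : F) (x : V F) :
    D.lam (fun j => s * x j) = fun j => s * D.lam x j := by
  funext j
  simp only [Dat.lam, Finset.mul_sum]
  refine Finset.sum_congr rfl fun i _ => ?_
  ring

lemma sym_map (σ : F →+* E) (D : Dat F) (x : V F) (k l : Fin 3) :
    (D.map σ).sym (fun j => σ (x j)) k l = σ (D.sym x k l) := by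
  simp [Dat.sym, Dat.map, map_sum]

lemma sym_smul (D : Dat F) (s : F) (x : V F) (k l : Fin 3) :
    D.sym (fun j => s * x j) k l = s ^ 2 * D.sym x k l := by
  simp only [Dat.sym, Finset.mul_sum]
  refine Finset.sum_congr rfl fun i _ => Finset.sum_congr rfl fun j _ => ?_
  ring

lemma G_map (σ : F →+* E) (D : Dat F) (x : V F) (a b : Fin 3) :
    (D.map σ).G (fun j => σ (x j)) a b = σ (D.G x a b) := by
  simp only [Dat.G, map_sum, map_mul]
  refine Finset.sum_congr rfl fun k _ => Finset.sum_congr rfl fun l _ => ?_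
  rw [lam_map, cr_map, cr_map, sym_map]

lemma G_smul (D : Dat F) (s : F) (x : V F) (a b : Fin 3) :
    D.G (fun j => s * x j) a b = s ^ 4 * D.G x a b := by
  simp only [Dat.G, Finset.mul_sum]
  refine Finset.sum_congr rfl fun k _ => Finset.sum_congr rfl fun l _ => ?_
  rw [lam_smul, cr_smul, cr_smul, sym_smul]
  ring

lemma smul_eq (s : F) (x : V F) : s • x = fun j => s * x j := by
  funext j
  simp

lemma sym_symm (D : Dat F) (x : V F) (k l : Fin 3) : D.sym x k l = D.sym x l k := by
  simp only [Dat.sym]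
  refine Finset.sum_congr rfl fun i _ => Finset.sum_congr rfl fun j _ => ?_
  ring

lemma G_symm (D : Dat F) (x : V F) (a b : Fin 3) : D.G x a b = D.G x b a := by
  simp only [Dat.G]
  rw [Finset.sum_comm]
  refine Finset.sum_congr rfl fun k _ => Finset.sum_congr rfl fun l _ => ?_
  rw [sym_symm D x l k]
  ring

lemma alt_map (σ : F →+* E) (D : Dat F) (k : ℕ) : (D.map σ).alt k = (D.alt k).map σ := by
  unfold Dat.alt
  by_cases h : k % 2 = 0
  · rw [if_pos h, if_pos h]
  · rw [if_neg h, if_neg h]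
    rfl

lemma alt_parity (D : Dat F) (k l : ℕ) (h : k % 2 = l % 2) : D.alt k = D.alt l := by
  unfold Dat.alt
  rw [h]

lemma adj_symm {D : Dat F} {x y y' : V F} (h : D.Adj x y y') : D.Adj x y' y := by
  obtain ⟨c, hc, h⟩ := h
  refine ⟨c, hc, fun a b => ?_⟩
  rw [← h a b]
  ring

lemma adj_smul {F : Type} [Field F] {D : Dat F} {x y y' : V F} (h : D.Adj x y y') {s t t' : F}
    (hs : s ≠ 0) (ht : t ≠ 0) (ht' : t' ≠ 0) : D.Adj (s • x) (t • y) (t' • y') := by
  obtain ⟨c, hc, h⟩ := h
  refine ⟨t * t' * c / s ^ 4, div_ne_zero (mul_ne_zero (mul_ne_zero ht ht') hc) (pow_ne_zero 4 hs), fun a b => ?_⟩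
  rw [smul_eq s x, G_smul]
  have h1 := h a b
  simp only [Pi.smul_apply, smul_eq_mul]
  have e : t * t' * c / s ^ 4 * (s ^ 4 * D.G x a b) = t * t' * (c * D.G x a b) := by
    field_simp
  rw [e, ← h1]
  ring

end Pool.Agent.Q224.WK
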