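import Pool.Agent.Q44.WK.Stm

/-! Project WK (helper44), job DE (helper224): density. -/

set_option autoImplicit false

namespace Pool.Agent.Q224.WK.DE

open Pool.Agent.Q44.WK MvPolynomial Height

lemma alt_even {F : Type} [CommRing F] (D : Dat F) (k : ℕ) : D.alt (2 * k) = D := by
  unfold Dat.alt
  rw [if_pos (by omega)]

theorem main (h1 : S_A) (h2 : S_cmp) : S_dens := by
  intro K _ _ D hp hF z hz hg m hm f hf
  by_contra hfD
  have hon : ∀ j : ℕ, D.On (z (2 * m * j)) (z (2 * m * j + 1)) := by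
    intro j
    have := (hz (2 * m * j)).1
    rwa [mul_assoc, alt_even, ← mul_assoc] at this
  have hon0 : D.On (z 0) (z 1) := by
    have := (hz 0).1
    have e : D.alt 0 = D := alt_even D 0
    rwa [e] at this
  obtain ⟨α, A, hA, hA0, hAv⟩ := h1 K D hp (z 0) (z 1) hon0 (hF (z 0) hon0.1) f hfD
  have hAz : ∀ j, eval (z (2 * m * j)) A = 0 := fun j =>
    hAv _ _ (hon j) (fun s t => hf j s t)
  obtain ⟨k₀, hk₀⟩ := hg
  have hexp : ∀ k, k₀ ≤ k → ∀ i : ℕ, 2 ^ i * logHeight (z k) ≤ logHeight (z (k + i)) := by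
    intro k hk i
    induction i with
    | zero => simp
    | succ i ih =>
      have h3 := (hk₀ (k + i) (by omega)).1
      calc 2 ^ (i + 1) * logHeight (z k) = 2 * (2 ^ i * logHeight (z k)) := by ring
        _ ≤ 2 * logHeight (z (k + i)) := by linarith
        _ ≤ logHeight (z (k + i + 1)) := h3
        _ = logHeight (z (k + (i + 1))) := by rw [add_assoc]
  have htend : Filter.Tendsto (fun j : ℕ => logHeight (z (2 * m * j))) Filter.atTop Filter.atTop := by
    have h3 : Filter.Tendsto (fun j : ℕ => (j : ℝ) - k₀) Filter.atTop Filter.atTop :=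
      Filter.tendsto_atTop_add_const_right _ _ tendsto_natCast_atTop_atTop
    refine Filter.tendsto_atTop_mono' _ ?_ h3
    filter_upwards [Filter.eventually_ge_atTop k₀] with j hj
    have hmj : j ≤ 2 * m * j := Nat.le_mul_of_pos_left j (by omega)
    obtain ⟨i, hi⟩ : ∃ i, 2 * m * j = k₀ + i := ⟨2 * m * j - k₀, by omega⟩
    have h4 := hexp k₀ le_rfl i
    have h5 := (hk₀ k₀ le_rfl).2
    rw [hi]
    have h6 : (j : ℝ) - k₀ ≤ i := by
      have : j ≤ k₀ + i := by omega
      have h7 : (j : ℝ) ≤ (k₀ : ℝ) + i := by exact_mod_cast this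
      linarith
    have h7 : (i : ℝ) ≤ 2 ^ i := by
      have := Nat.lt_two_pow_self (n := i)
      exact_mod_cast this.le
    calc (j : ℝ) - k₀ ≤ 2 ^ i := h6.trans h7
      _ ≤ 2 ^ i * logHeight (z k₀) := le_mul_of_one_le_right (by positivity) h5
      _ ≤ _ := h4
  obtain ⟨C, hC⟩ := h2 K D z hz α A hA hA0 m hm hAz htend (16 * α + 1)
  have hev1 : ∀ᶠ n : ℕ in Filter.atTop, C < logHeight (z (2 * m * n)) :=
    htend.eventually_gt_atTop C
  have hev2 : ∀ᶠ n : ℕ in Filter.atTop, k₀ ≤ n := Filter.eventually_ge_atTop k₀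
  obtain ⟨n, hn1, hn2, hn3⟩ := (hC.and_eventually (hev1.and hev2)).exists
  have hmn : n ≤ 2 * m * n := Nat.le_mul_of_pos_left n (by omega)
  have h3 := hexp (2 * m * n) (by omega) (2 * m * (16 * α + 1))
  rw [← mul_add] at h3
  have h4 : (16 * (α : ℝ) + 1) ≤ 2 ^ (2 * m * (16 * α + 1)) := by
    have h5 : 16 * α + 1 ≤ 2 * m * (16 * α + 1) := Nat.le_mul_of_pos_left _ (by omega)
    have h6 := Nat.lt_two_pow_self (n := 2 * m * (16 * α + 1))
    have h7 : 16 * α + 1 ≤ 2 ^ (2 * m * (16 * α + 1)) := by omega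
    exact_mod_cast h7
  have h5 : 0 ≤ logHeight (z (2 * m * n)) := by
    have := (hk₀ (2 * m * n) (by omega)).2
    linarith
  have h6 := mul_le_mul_of_nonneg_right h4 h5
  linarith

end Pool.Agent.Q224.WK.DE
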