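import Pool.Agent.Q224.WK.Base

/-! Project WK (helper44), job FA (helper224): fields of definition. -/

set_option autoImplicit false

namespace Pool.Agent.Q224.WK.FA

open Pool.Agent.Q44.WK MvPolynomial Pool.Agent.Q224.WK

section

variable {K Ω : Type} [Field K] [Field Ω] [Algebra K Ω]

lemma two_ne [CharZero K] : (2 : Ω) ≠ 0 := by
  have : CharZero Ω := charZero_of_injective_algebraMap (algebraMap K Ω).injective
  exact two_ne_zero

/-- the coordinates of `G` at a point with coordinates in `E` -/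
lemma G_mem (D : Dat K) (E : IntermediateField K Ω) (x : V Ω) (hx : ∀ a, x a ∈ E) (a b : Fin 3) :
    (D.map (algebraMap K Ω)).G x a b ∈ E := by
  have h := G_map (algebraMap E Ω) (D.map (algebraMap K E)) (fun j => (⟨x j, hx j⟩ : E)) a b
  have e1 : (D.map (algebraMap K E)).map (algebraMap E Ω) = D.map (algebraMap K Ω) := rfl
  have e2 : (fun j => algebraMap E Ω (⟨x j, hx j⟩ : E)) = x := rfl
  rw [e1, e2] at h
  rw [h]
  exact ((D.map (algebraMap K E)).G (fun j => (⟨x j, hx j⟩ : E)) a b).2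

lemma G_defBy (D : Dat K) (E : IntermediateField K Ω) (x : V Ω) (s : Ω) (hx : ∀ a, s * x a ∈ E)
    (a b : Fin 3) : s ^ 4 * (D.map (algebraMap K Ω)).G x a b ∈ E := by
  rw [← G_smul]
  exact G_mem D E _ hx a b

end

theorem f1 (h : S_form) : S_f1 := by
  intro K Ω _ _ _ _ D ζ hζ E k
  have h2 : (2 : Ω) ≠ 0 := two_ne (K := K)
  induction k with
  | zero =>
    intro h0 _
    exact h0
  | succ k ih =>
    intro h0 h1
    refine ih ?_ h0
    obtain ⟨s, hs, hsE⟩ := h0
    obtain ⟨t, ht, htE⟩ := h1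
    have hadj := adj_symm (hζ k).2
    rw [alt_map] at hadj
    obtain ⟨i, hi⟩ : ∃ i, ζ (k + 1 + 1) i ≠ 0 := by
      by_contra hc
      push Not at hc
      exact (hζ (k + 1)).1.2.1 (funext hc)
    obtain ⟨c, hc, hcb⟩ := h Ω h2 _ _ _ _ hadj i hi
    refine ⟨s ^ 4 * t * c, mul_ne_zero (mul_ne_zero (pow_ne_zero 4 hs) ht) hc, fun b => ?_⟩
    have h3 := G_defBy (D.alt (k + 1)) E (ζ (k + 1)) s hsE i b
    have h4 := G_defBy (D.alt (k + 1)) E (ζ (k + 1)) s hsE i i
    have h5 := htE i
    have h6 := htE b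
    have e : s ^ 4 * t * c * ζ k b =
        2 * (t * ζ (k + 1 + 1) i) * (s ^ 4 * ((D.alt (k + 1)).map (algebraMap K Ω)).G (ζ (k + 1)) i b) -
        (s ^ 4 * ((D.alt (k + 1)).map (algebraMap K Ω)).G (ζ (k + 1)) i i) * (t * ζ (k + 1 + 1) b) := by
      linear_combination s ^ 4 * t * hcb b
    rw [e]
    refine sub_mem (mul_mem (mul_mem ?_ h5) h3) (mul_mem h4 h6)
    exact ofNat_mem E 2

lemma exists_m {K Ω : Type} [Field K] [CharZero K] [Field Ω] [Algebra K Ω] (y y' : V Ω)
    (hy : y ≠ 0) (hy' : y' ≠ 0) : ∃ m : V K, ∑ a, algebraMap K Ω (m a) * y a ≠ 0 ∧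
      ∑ a, algebraMap K Ω (m a) * y' a ≠ 0 := by
  obtain ⟨i, hi⟩ : ∃ i, y i ≠ 0 := by
    by_contra hc
    push Not at hc
    exact hy (funext hc)
  obtain ⟨j, hj⟩ : ∃ j, y' j ≠ 0 := by
    by_contra hc
    push Not at hc
    exact hy' (funext hc)
  have h2 : (2 : Ω) ≠ 0 := two_ne (K := K)
  have hs : ∃ s : K, y i + algebraMap K Ω s * y j ≠ 0 ∧ y' i + algebraMap K Ω s * y' j ≠ 0 := by
    by_contra hc
    push Not at hc
    have h0 := hc 0
    rw [map_zero, zero_mul, zero_mul, add_zero, add_zero] at h0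
    have h0' := h0 hi
    have h1 := hc 1
    have h3 := hc (-1)
    rw [map_neg, map_one, h0', zero_add] at h3
    rw [map_one, h0', zero_add] at h1
    have h4 : y i + 1 * y j = 0 := by
      by_contra h5
      have := h1 h5
      rw [one_mul] at this
      exact hj this
    have h5 : y i + -1 * y j = 0 := by
      by_contra h6
      have := h3 h6
      rw [neg_one_mul, neg_eq_zero] at this
      exact hj this
    have h6 : (2 : Ω) * y i = 0 := by linear_combination h4 + h5
    exact hi ((mul_eq_zero.1 h6).resolve_left h2)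
  obtain ⟨s, hs1, hs2⟩ := hs
  have e : ∀ v : V Ω, ∑ a, algebraMap K Ω ((if a = i then (1 : K) else 0) +
      (if a = j then s else 0)) * v a = v i + algebraMap K Ω s * v j := by
    intro v
    simp only [map_add, add_mul, Finset.sum_add_distrib]
    congr 1
    · rw [Finset.sum_eq_single i]
      · simp
      · intro b _ hb
        simp [hb]
      · intro hb
        exact absurd (Finset.mem_univ i) hb
    · rw [Finset.sum_eq_single j]
      · simp
      · intro b _ hb
        simp [hb]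
      · intro hb
        exact absurd (Finset.mem_univ j) hb
  refine ⟨fun a => (if a = i then (1 : K) else 0) + (if a = j then s else 0), ?_, ?_⟩
  · rw [e]
    exact hs1
  · rw [e]
    exact hs2

theorem f2 : S_f2 := by
  intro K Ω _ _ _ _ D x y y' hy hy' hadj E hx
  have h2 : (2 : Ω) ≠ 0 := two_ne (K := K)
  obtain ⟨m, hm, hm'⟩ := exists_m (K := K) y y' hy hy'
  obtain ⟨s₀, hs₀, hsE⟩ := hx
  obtain ⟨c, hc, hcG⟩ := hadj
  set n : V Ω := fun a => algebraMap K Ω (m a) with hn
  have hnE : ∀ a, n a ∈ E := fun a => E.algebraMap_mem (m a)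
  set M : Ω := ∑ a, n a * y a with hM
  set M' : Ω := ∑ a, n a * y' a with hM'
  set G' : Fin 3 → Fin 3 → Ω := fun a b => s₀ ^ 4 * (D.map (algebraMap K Ω)).G x a b with hG'
  have hG'E : ∀ a b, G' a b ∈ E := fun a b => G_defBy D E x s₀ hsE a b
  have hs4 : s₀ ^ 4 ≠ 0 := pow_ne_zero 4 hs₀
  set c' : Ω := c / s₀ ^ 4 with hc'
  have hc'0 : c' ≠ 0 := div_ne_zero hc hs4
  have hcG' : ∀ a b, y a * y' b + y b * y' a = c' * G' a b := by
    intro a b
    rw [hcG a b, hc', hG']
    simp only
    field_simp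
  -- the quadratic form at `m`
  set g : Ω := ∑ a, ∑ b, n a * n b * G' a b with hg
  have hgE : g ∈ E := sum_mem fun a _ => sum_mem fun b _ => mul_mem (mul_mem (hnE a) (hnE b)) (hG'E a b)
  have hg1 : 2 * (M * M') = c' * g := by
    rw [hg, hM, hM']
    have e : ∀ a b, c' * (n a * n b * G' a b) = n a * n b * (y a * y' b + y b * y' a) := by
      intro a b
      rw [hcG' a b]
      ring
    simp only [Finset.mul_sum, e]
    simp only [Fin.sum_univ_three]
    ring
  have hg0 : g ≠ 0 := by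
    intro h0
    rw [h0, mul_zero] at hg1
    exact mul_ne_zero h2 (mul_ne_zero hm hm') hg1
  have hlin : ∀ a, y a * M' + y' a * M = c' * ∑ b, n b * G' a b := by
    intro a
    rw [hM, hM']
    have e : ∀ b, c' * (n b * G' a b) = n b * (y a * y' b + y b * y' a) := by
      intro b
      rw [hcG' a b]
      ring
    simp only [Finset.mul_sum, e]
    simp only [Fin.sum_univ_three]
    ring
  have hlE : ∀ a, ∑ b, n b * G' a b ∈ E := fun a => sum_mem fun b _ => mul_mem (hnE b) (hG'E a b)
  refine ⟨M⁻¹ • y, M⁻¹, inv_ne_zero hm, rfl, fun a => ?_⟩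
  -- coefficients
  have hpE : -(2 * (∑ b, n b * G' a b) / g) ∈ E :=
    neg_mem (div_mem (mul_mem (ofNat_mem E 2) (hlE a)) hgE)
  have hqE : G' a a / g ∈ E := div_mem (hG'E a a) hgE
  have hd : (Polynomial.C (1 : E) * Polynomial.X ^ 2 + Polynomial.C (⟨_, hpE⟩ : E) * Polynomial.X +
      Polynomial.C (⟨_, hqE⟩ : E)).natDegree = 2 := Polynomial.natDegree_quadratic one_ne_zero
  refine ⟨Polynomial.C (1 : E) * Polynomial.X ^ 2 + Polynomial.C (⟨_, hpE⟩ : E) * Polynomial.X +
      Polynomial.C (⟨_, hqE⟩ : E), ?_, hd, ?_⟩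
  · exact Polynomial.leadingCoeff_quadratic one_ne_zero
  · simp only [map_add, map_mul, map_pow, Polynomial.aeval_C, Polynomial.aeval_X, map_one, one_mul]
    have e1 : (algebraMap E Ω) (⟨-(2 * (∑ b, n b * G' a b) / g), hpE⟩ : E) =
      -(2 * (∑ b, n b * G' a b) / g) := rfl
    have e2 : (algebraMap E Ω) (⟨G' a a / g, hqE⟩ : E) = G' a a / g := rfl
    rw [e1, e2]
    have e3 : (M⁻¹ • y) a = y a / M := by
      rw [Pi.smul_apply, smul_eq_mul]
      ring
    rw [e3]
    have h3 := hlin a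
    have h4 := hcG' a a
    have h5 : ∑ b, n b * G' a b = (y a * M' + y' a * M) / c' := by
      rw [h3]
      field_simp
    have h6 : G' a a = 2 * (y a * y' a) / c' := by
      field_simp
      linear_combination -h4
    have h7 : g = 2 * (M * M') / c' := by
      rw [hg1]
      field_simp
    rw [h5, h6, h7]
    field_simp
    ring

end Pool.Agent.Q224.WK.FA
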