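import Pool.Agent.Q224.WK.Base

/-! Project WK (helper44), job RE (helper224): recurrence. -/

set_option autoImplicit false

namespace Pool.Agent.Q224.WK.RE

open Pool.Agent.Q44.WK Pool.Agent.Q224.WK

lemma exists_unit {L : Type} [NormedField L] (v : V L) (hv : v ≠ 0) :
    ∃ t : L, t ≠ 0 ∧ ‖t • v‖ = 1 := by
  obtain ⟨a, ha⟩ := Finite.exists_max (fun a => ‖v a‖)
  have hva : v a ≠ 0 := by
    intro h0
    apply hv
    funext b
    have := ha b
    rw [h0, norm_zero] at this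
    exact norm_le_zero_iff.1 this
  have hva' : 0 < ‖v a‖ := norm_pos_iff.2 hva
  refine ⟨(v a)⁻¹, inv_ne_zero hva, le_antisymm ?_ ?_⟩
  · rw [pi_norm_le_iff_of_nonneg zero_le_one]
    intro b
    rw [Pi.smul_apply, smul_eq_mul, norm_mul, norm_inv, inv_mul_le_iff₀ hva', mul_one]
    exact ha b
  · have h1 := norm_le_pi_norm ((v a)⁻¹ • v) a
    rw [Pi.smul_apply, smul_eq_mul, inv_mul_cancel₀ hva, norm_one] at h1
    exact h1

lemma good_swap {L : Type} [NormedField L] {D : Dat L} (h : Good D) : Good D.swap := by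
  refine ⟨fun i j => h.1 j i, fun i j k l => h.2.1 k l i j, h.2.2.1, fun x hx => ?_⟩
  obtain ⟨h1, h2⟩ := h.2.2.2 x hx
  exact ⟨h2, h1⟩

lemma good_alt {L : Type} [NormedField L] {D : Dat L} (h : Good D) (k : ℕ) : Good (D.alt k) := by
  unfold Dat.alt
  by_cases hk : k % 2 = 0
  · rw [if_pos hk]
    exact h
  · rw [if_neg hk]
    exact good_swap h

lemma near_refl {L : Type} [NormedField L] {ε : ℝ} (hε : 0 ≤ ε) (x : V L) : Near ε x x := by
  refine ⟨1, norm_one, ?_⟩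
  rw [one_smul, sub_self, norm_zero]
  exact hε

lemma near_trans {L : Type} [NormedField L] [IsUltrametricDist L] {ε : ℝ} {x y z : V L}
    (h1 : Near ε x y) (h2 : Near ε y z) : Near ε x z := by
  obtain ⟨s, hs, h1⟩ := h1
  obtain ⟨t, ht, h2⟩ := h2
  have hε : 0 ≤ ε := (norm_nonneg _).trans h1
  refine ⟨s * t, by rw [norm_mul, hs, ht, one_mul], ?_⟩
  rw [pi_norm_le_iff_of_nonneg hε] at h1 h2 ⊢
  intro a
  have e : (x - (s * t) • z) a = (x - s • y) a + s * (y - t • z) a := by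
    simp only [Pi.sub_apply, Pi.smul_apply, smul_eq_mul]
    ring
  rw [e]
  refine (IsUltrametricDist.norm_add_le_max _ _).trans (max_le (h1 a) ?_)
  rw [norm_mul, hs, one_mul]
  exact h2 a

lemma adj_map {F E : Type} [Field F] [Field E] (σ : F →+* E) {D : Dat F} {x y y' : V F}
    (h : D.Adj x y y') : (D.map σ).Adj (σ ∘ x) (σ ∘ y) (σ ∘ y') := by
  obtain ⟨c, hc, h⟩ := h
  refine ⟨σ c, (map_ne_zero σ).2 hc, fun a b => ?_⟩
  have e : (D.map σ).G (σ ∘ x) a b = σ (D.G x a b) := G_map σ D x a b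
  rw [e, ← map_mul, ← h a b]
  simp

/-- from the normalised vectors to the original ones -/
lemma fin_step {L : Type} [NormedField L] {ε ε' : ℝ} {t t₀ : L} (ht : t ≠ 0) (ht₀ : t₀ ≠ 0) {v v₀ : V L}
    (h : Near ε' (t • v) (t₀ • v₀)) (hε : ‖t₀‖⁻¹ * ε' ≤ ε) : ∃ c : L, c ≠ 0 ∧ ‖c • v - v₀‖ ≤ ε := by
  obtain ⟨s, hs, h⟩ := h
  have hs0 : s ≠ 0 := by
    intro h0
    rw [h0, norm_zero] at hs
    exact zero_ne_one hs
  refine ⟨(s * t₀)⁻¹ * t, mul_ne_zero (inv_ne_zero (mul_ne_zero hs0 ht₀)) ht, ?_⟩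
  have e : ((s * t₀)⁻¹ * t) • v - v₀ = (s * t₀)⁻¹ • (t • v - s • t₀ • v₀) := by
    rw [smul_sub, smul_smul, smul_smul, smul_smul, mul_assoc, inv_mul_cancel₀ (mul_ne_zero hs0 ht₀),
      one_smul]
  rw [e, norm_smul, norm_inv, norm_mul, hs, one_mul]
  exact (mul_le_mul_of_nonneg_left h (inv_nonneg.2 (norm_nonneg _))).trans hε

theorem main (h : S_close) : S_rec := by
  intro K _ κ _ L _ _ _ σ D hgood z hz ε hε
  classical
  have hnz : ∀ (i : κ) (k : ℕ), (σ i ∘ z k) ≠ 0 := by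
    intro i k h0
    apply (hz k).1.1
    funext a
    have h1 := congrFun h0 a
    rw [Function.comp_apply, Pi.zero_apply, map_eq_zero] at h1
    exact h1
  choose t ht0 ht1 using fun (i : κ) (k : ℕ) => exists_unit (σ i ∘ z k) (hnz i k)
  set T : ℝ := 1 + ∑ i, (‖t i 0‖⁻¹ + ‖t i 1‖⁻¹) with hT
  have hTs : ∀ i, ‖t i 0‖⁻¹ + ‖t i 1‖⁻¹ ≤ T - 1 := by
    intro i
    have h1 := Finset.single_le_sum (s := Finset.univ) (f := fun i => ‖t i 0‖⁻¹ + ‖t i 1‖⁻¹)
      (fun i _ => add_nonneg (inv_nonneg.2 (norm_nonneg _)) (inv_nonneg.2 (norm_nonneg _)))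
      (Finset.mem_univ i)
    rw [hT]
    linarith
  have hT1 : 1 ≤ T := by
    rw [hT]
    have : 0 ≤ ∑ i, (‖t i 0‖⁻¹ + ‖t i 1‖⁻¹) := Finset.sum_nonneg fun i _ =>
      add_nonneg (inv_nonneg.2 (norm_nonneg _)) (inv_nonneg.2 (norm_nonneg _))
    linarith
  set ε' : ℝ := min (1 / 2) (ε / T) with hε'
  have hε'0 : 0 < ε' := lt_min (by norm_num) (by positivity)
  have hε'1 : ε' < 1 := (min_le_left _ _).trans_lt (by norm_num)
  have hε'T : T * ε' ≤ ε := by
    have : ε' ≤ ε / T := min_le_right _ _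
    rw [le_div_iff₀ (by linarith)] at this
    linarith
  have hb0 : ∀ i, ‖t i 0‖⁻¹ * ε' ≤ ε := by
    intro i
    refine le_trans (mul_le_mul_of_nonneg_right ?_ hε'0.le) hε'T
    have h1 := hTs i
    have h2 : 0 ≤ ‖t i 1‖⁻¹ := inv_nonneg.2 (norm_nonneg _)
    linarith
  have hb1 : ∀ i, ‖t i 1‖⁻¹ * ε' ≤ ε := by
    intro i
    refine le_trans (mul_le_mul_of_nonneg_right ?_ hε'0.le) hε'T
    have h1 := hTs i
    have h2 : 0 ≤ ‖t i 0‖⁻¹ := inv_nonneg.2 (norm_nonneg _)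
    linarith
  -- the normalised chain
  set U : ∀ i : κ, ℕ → V (L i) := fun i k => t i k • (σ i ∘ z k) with hU
  have hU1 : ∀ i k, ‖U i k‖ = 1 := ht1
  have hUa : ∀ (i : κ) (k : ℕ), ((D.map (σ i)).alt (k + 1)).Adj (U i (k + 1)) (U i k) (U i (k + 2)) := by
    intro i k
    rw [alt_map]
    exact adj_smul (adj_map (σ i) (hz k).2) (ht0 i (k + 1)) (ht0 i k) (ht0 i (k + 2))
  have hga : ∀ (i : κ) (k : ℕ), Good ((D.map (σ i)).alt k) := fun i k => good_alt (hgood i) k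
  -- pigeon hole principle
  set xs : ℕ → (∀ i : κ, V (L i) × V (L i)) := fun n i => (U i (2 * n), U i (2 * n + 1)) with hxs
  have hxb : ∀ n, xs n ∈ Metric.closedBall (0 : ∀ i : κ, V (L i) × V (L i)) 1 := by
    intro n
    rw [Metric.mem_closedBall, dist_zero_right, pi_norm_le_iff_of_nonneg zero_le_one]
    intro i
    rw [Prod.norm_def]
    exact max_le (hU1 i _).le (hU1 i _).le
  obtain ⟨a, -, φ, hφ, hlim⟩ := tendsto_subseq_of_bounded Metric.isBounded_closedBall hxb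
  obtain ⟨N, hN⟩ := Metric.cauchySeq_iff'.1 hlim.cauchySeq ε' hε'0
  have hd := hN (N + 1) (by omega)
  have hlt : φ N < φ (N + 1) := hφ (by omega)
  set m₁ := φ N with hm₁
  obtain ⟨m, hm0, hm⟩ : ∃ m, 0 < m ∧ φ (N + 1) = m₁ + m := ⟨φ (N + 1) - m₁, by omega, by omega⟩
  have hdi : ∀ i, dist (xs (m₁ + m) i) (xs m₁ i) < ε' := by
    intro i
    have h1 : dist (xs (φ (N + 1))) (xs (φ N)) < ε' := hd
    rw [hm] at h1
    exact (dist_le_pi_dist (xs (m₁ + m)) (xs m₁) i).trans_lt h1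
  set P : κ → ℕ → Prop := fun i k => Near ε' (U i (k + 2 * m)) (U i k) with hP
  have hP0 : ∀ i, P i (2 * m₁) ∧ P i (2 * m₁ + 1) := by
    intro i
    have h1 := hdi i
    rw [Prod.dist_eq, max_lt_iff, dist_eq_norm, dist_eq_norm] at h1
    have e1 : 2 * m₁ + 2 * m = 2 * (m₁ + m) := by ring
    have e2 : 2 * m₁ + 1 + 2 * m = 2 * (m₁ + m) + 1 := by ring
    refine ⟨⟨1, norm_one, ?_⟩, ⟨1, norm_one, ?_⟩⟩
    · rw [one_smul, e1]
      exact h1.1.le
    · rw [one_smul, e2]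
      exact h1.2.le
  have hadj : ∀ (i : κ) (k : ℕ), ((D.map (σ i)).alt (k + 1)).Adj (U i (k + 1 + 2 * m)) (U i (k + 2 * m))
      (U i (k + 2 + 2 * m)) := by
    intro i k
    have h1 := hUa i (k + 2 * m)
    have e1 : k + 2 * m + 1 = k + 1 + 2 * m := by ring
    have e2 : k + 2 * m + 2 = k + 2 + 2 * m := by ring
    rw [alt_parity (D.map (σ i)) (k + 2 * m + 1) (k + 1) (by omega), e1, e2] at h1
    exact h1
  have hdown : ∀ i k, P i (k + 1) → P i (k + 2) → P i k := by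
    intro i k h1 h2
    exact h (L i) _ (hga i (k + 1)) ε' hε'0 hε'1 _ _ _ _ _ _ (hU1 i _) (hU1 i _) (hU1 i _) (hU1 i _)
      (hU1 i _) (hU1 i _) (adj_symm (hadj i k)) (adj_symm (hUa i k)) h1 h2
  have hup : ∀ i k, P i k → P i (k + 1) → P i (k + 2) := by
    intro i k h1 h2
    exact h (L i) _ (hga i (k + 1)) ε' hε'0 hε'1 _ _ _ _ _ _ (hU1 i _) (hU1 i _) (hU1 i _) (hU1 i _)
      (hU1 i _) (hU1 i _) (hadj i k) (hUa i k) h2 h1
  have hdesc : ∀ i n, P i n ∧ P i (n + 1) → P i 0 ∧ P i 1 := by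
    intro i n
    induction n with
    | zero => exact fun h1 => h1
    | succ n ih => exact fun h1 => ih ⟨hdown i n h1.1 h1.2, h1.1⟩
  have hasc : ∀ i k, P i k ∧ P i (k + 1) := by
    intro i k
    induction k with
    | zero => exact hdesc i _ (hP0 i)
    | succ k ih => exact ⟨ih.2, hup i k ih.1 ih.2⟩
  have hall0 : ∀ (j : ℕ) (i : κ), Near ε' (U i (2 * m * j)) (U i 0) := by
    intro j i
    induction j with
    | zero => exact near_refl hε'0.le _
    | succ j ih =>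
      have e : 2 * m * (j + 1) = 2 * m * j + 2 * m := by ring
      rw [e]
      exact near_trans (hasc i (2 * m * j)).1 ih
  have hall1 : ∀ (j : ℕ) (i : κ), Near ε' (U i (2 * m * j + 1)) (U i 1) := by
    intro j i
    induction j with
    | zero => exact near_refl hε'0.le _
    | succ j ih =>
      have e : 2 * m * (j + 1) + 1 = 2 * m * j + 1 + 2 * m := by ring
      rw [e]
      exact near_trans (hasc i (2 * m * j + 1)).1 ih
  exact ⟨m, hm0, fun j i => ⟨fin_step (ht0 i _) (ht0 i _) (hall0 j i) (hb0 i),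
    fin_step (ht0 i _) (ht0 i _) (hall1 j i) (hb1 i)⟩⟩

end Pool.Agent.Q224.WK.RE
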